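import Mathlib
import Pool.Agent.U980.EQ.Main

/-!
# Equidistribution on products when most conjugates of each coordinate have equidistributed orbits
-/

set_option autoImplicit false

namespace Pool.Agent.U980.RC

open Pool.Agent.U980.EQ MulAction MeasureTheory Filter Topology ProbabilityTheory

/-- The sets which contain `ν i z` for most `z` in `S i`. -/
def mostFilter {Z X : Type} (S : ℕ → Finset Z) (ν : ℕ → Z → X) : Filter X where
  sets := {V | ∀ ε : ℝ, 0 < ε → ∀ᶠ i in atTop,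
    (({z | z ∈ S i ∧ ν i z ∉ V} : Set Z).ncard : ℝ) ≤ ε * (S i).card}
  univ_sets := by
    intro ε hε
    refine Eventually.of_forall fun i => ?_
    have : ({z | z ∈ S i ∧ ν i z ∉ Set.univ} : Set Z) = ∅ := by
      ext z
      simp
    rw [this, Set.ncard_empty, Nat.cast_zero]
    positivity
  sets_of_superset := by
    intro V W hV hVW ε hε
    filter_upwards [hV ε hε] with i hi
    refine le_trans (Nat.cast_le.2 (Set.ncard_le_ncard ?_
      ((S i).finite_toSet.subset fun z hz => hz.1))) hi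
    rintro z ⟨hz, hz'⟩
    exact ⟨hz, fun h => hz' (hVW h)⟩
  inter_sets := by
    intro V W hV hW ε hε
    filter_upwards [hV (ε / 2) (half_pos hε), hW (ε / 2) (half_pos hε)] with i h1 h2
    have hf : ∀ U : Set X, ({z | z ∈ S i ∧ ν i z ∉ U} : Set Z).Finite := fun U =>
      (S i).finite_toSet.subset fun z hz => hz.1
    have h3 : ({z | z ∈ S i ∧ ν i z ∉ V ∩ W} : Set Z).ncard ≤
        ({z | z ∈ S i ∧ ν i z ∉ V} : Set Z).ncard + ({z | z ∈ S i ∧ ν i z ∉ W} : Set Z).ncard := by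
      refine le_trans (Set.ncard_le_ncard ?_ ((hf V).union (hf W))) (Set.ncard_union_le _ _)
      rintro z ⟨hz, hz'⟩
      by_cases hV' : ν i z ∈ V
      · exact Or.inr ⟨hz, fun hW' => hz' ⟨hV', hW'⟩⟩
      · exact Or.inl ⟨hz, hV'⟩
    have h4 : (({z | z ∈ S i ∧ ν i z ∉ V ∩ W} : Set Z).ncard : ℝ) ≤
        ({z | z ∈ S i ∧ ν i z ∉ V} : Set Z).ncard + ({z | z ∈ S i ∧ ν i z ∉ W} : Set Z).ncard := by
      exact_mod_cast h3
    linarith

theorem mem_mostFilter {Z X : Type} {S : ℕ → Finset Z} {ν : ℕ → Z → X} {V : Set X} :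
    V ∈ mostFilter S ν ↔ ∀ ε : ℝ, 0 < ε → ∀ᶠ i in atTop,
      (({z | z ∈ S i ∧ ν i z ∉ V} : Set Z).ncard : ℝ) ≤ ε * (S i).card := Iff.rfl

theorem av_le_of_most {Z : Type} (S : Finset Z) (ψ : Z → ℝ) {ε : ℝ} (hε : 0 ≤ ε)
    (h1 : ∀ z ∈ S, ψ z ≤ 1) (h : (({z | z ∈ S ∧ ¬ ψ z < ε} : Set Z).ncard : ℝ) ≤ ε * S.card) :
    av S ψ ≤ 2 * ε := by
  classical
  rcases S.eq_empty_or_nonempty with rfl | hS
  · simp [av]
    exact hε
  have hpos : (0 : ℝ) < S.card := by exact_mod_cast Finset.card_pos.2 hS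
  have e : ({z | z ∈ S ∧ ¬ ψ z < ε} : Set Z) = ((S.filter fun z => ¬ ψ z < ε : Finset Z) : Set Z) := by
    ext z
    simp
  rw [e, Set.ncard_coe_finset] at h
  rw [av, div_le_iff₀ hpos, ← Finset.sum_filter_add_sum_filter_not S fun z => ψ z < ε]
  have h2 : ∑ z ∈ S with ψ z < ε, ψ z ≤ ε * S.card := by
    calc ∑ z ∈ S with ψ z < ε, ψ z ≤ ∑ _z ∈ S with ψ _z < ε, ε :=
          Finset.sum_le_sum fun z hz => (Finset.mem_filter.1 hz).2.le
      _ = ((S.filter fun z => ψ z < ε).card : ℝ) * ε := by rw [Finset.sum_const, nsmul_eq_mul]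
      _ ≤ S.card * ε := by
          refine mul_le_mul_of_nonneg_right ?_ hε
          exact_mod_cast Finset.card_filter_le _ _
      _ = ε * S.card := mul_comm _ _
  have h3 : ∑ z ∈ S with ¬ ψ z < ε, ψ z ≤ ε * S.card := by
    calc ∑ z ∈ S with ¬ ψ z < ε, ψ z ≤ ∑ _z ∈ S with ¬ ψ _z < ε, (1 : ℝ) :=
          Finset.sum_le_sum fun z hz => h1 z (Finset.mem_filter.1 hz).1
      _ = ((S.filter fun z => ¬ ψ z < ε).card : ℝ) := by rw [Finset.sum_const, nsmul_eq_mul, mul_one]
      _ ≤ _ := h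
  linarith

section block

variable {G : Type} [Group G] {ι : Type} {P : ι → Type} [∀ j, MulAction G (P j)]

/-- One coordinate is averaged over the orbits of a normal subgroup which fixes the other coordinates
which occur in `h`. -/
theorem av_far {Γ Δ : Subgroup G} (hΔ : Δ.Normal) (hle : Δ ≤ Γ) (hfin : ∀ j (p : P j), (orbit G p).Finite)
    {x : ∀ j, P j} {O : Finset (∀ j, P j)} (hO : (O : Set (∀ j, P j)) = orbit Γ x) {j : ι}
    (h : (∀ j, P j) → ℝ) (h1 : ∀ y ∈ O, |h y| ≤ 1) (hinv : ∀ y ∈ O, ∀ δ ∈ Δ, h (δ • y) = h y)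
    (φ : P j → ℝ) (μ : ℝ) (ψ : P j → ℝ)
    (hψ : ∀ p, ∀ T : Finset (P j), (T : Set (P j)) = orbit Δ p → |av T φ - μ| ≤ ψ p) :
    |av O (fun z => h z * φ (z j)) - μ * av O h| ≤ av O (fun y => ψ (y j)) := by
  classical
  have hsub : ∀ (H : Subgroup G) (j : ι) (p : P j), (orbit H p).Finite := by
    intro H j p
    refine (hfin j p).subset ?_
    rintro _ ⟨h, rfl⟩
    exact ⟨(h : G), rfl⟩
  have hmem : ∀ y, y ∈ O ↔ y ∈ orbit Γ x := fun y => by rw [← hO, Finset.mem_coe]
  have hxO : x ∈ O := (hmem x).2 (mem_orbit_self x)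
  -- the blocks
  have hRfin : ∀ y ∈ O, (orbit Δ y).Finite := by
    intro y hy
    refine (O.finite_toSet).subset ?_
    rintro _ ⟨d, rfl⟩
    rw [Finset.mem_coe, hmem]
    rw [hmem] at hy
    exact (orbit_eq_iff.2 hy) ▸ (⟨⟨d, hle d.2⟩, rfl⟩ : (d : G) • y ∈ orbit Γ y)
  set R : (∀ j, P j) → Finset (∀ j, P j) := fun y =>
    if hy : y ∈ O then (hRfin y hy).toFinset else ∅ with hR
  have hRy : ∀ y (hy : y ∈ O), (R y : Set (∀ j, P j)) = orbit Δ y := by
    intro y hy
    simp only [hR]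
    rw [dif_pos hy, Set.Finite.coe_toFinset]
  have hRmem : ∀ y ∈ O, ∀ z, z ∈ R y ↔ z ∈ orbit Δ y := fun y hy z => by
    rw [← hRy y hy, Finset.mem_coe]
  set b := (orbit Δ x).ncard with hb
  have hcard : ∀ y ∈ O, (R y).card = b := by
    intro y hy
    rw [← Set.ncard_coe_finset, hRy y hy]
    obtain ⟨g, rfl⟩ := (hmem y).1 hy
    exact orbit_smul_ncard hΔ (g : G) x
  have hb0 : 0 < b := (Set.ncard_pos (hRfin x hxO)).2 ⟨x, mem_orbit_self x⟩
  have hRO : ∀ y ∈ O, R y ⊆ O := by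
    intro y hy z hz
    rw [hRmem y hy] at hz
    obtain ⟨d, rfl⟩ := hz
    rw [hmem] at hy ⊢
    exact (orbit_eq_iff.2 hy) ▸ (⟨⟨d, hle d.2⟩, rfl⟩ : (d : G) • y ∈ orbit Γ y)
  -- averages over orbits in one coordinate
  set T : P j → Finset (P j) := fun p => (hsub Δ j p).toFinset with hT
  have hTp : ∀ p, (T p : Set (P j)) = orbit Δ p := fun p => Set.Finite.coe_toFinset _
  have havR : ∀ y ∈ O, (∑ z ∈ R y, h z * φ (z j)) / b = h y * av (T (y j)) φ := by
    intro y hy
    have e1 : ∑ z ∈ R y, h z * φ (z j) = h y * ∑ z ∈ R y, φ (z j) := by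
      rw [Finset.mul_sum]
      refine Finset.sum_congr rfl fun z hz => ?_
      rw [hRmem y hy] at hz
      obtain ⟨d, rfl⟩ := hz
      have h3 : h (d • y) = h y := hinv y hy d d.2
      rw [h3]
    have e2 : av (R y) (fun z => φ (z j)) = av (T (y j)) φ :=
      av_equiv (H := Δ) (π := fun z : ∀ j, P j => z j) (fun g a => rfl) y (hRy y hy) (hTp (y j)) φ
    rw [e1, ← e2, av, hcard y hy, mul_div_assoc]
  have hsum : ∑ y ∈ O, h y * φ (y j) = ∑ y ∈ O, h y * av (T (y j)) φ := by
    have e := avg_block O R b hb0 hRO hcard (fun y hy z hz hzy => by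
      rw [hRmem y hy] at hzy
      rw [hRmem z hz]
      exact mem_orbit_symm.1 hzy) (fun z => h z * φ (z j))
    rw [← e]
    exact Finset.sum_congr rfl havR
  have hOpos : (0 : ℝ) < O.card := by exact_mod_cast Finset.card_pos.2 ⟨x, hxO⟩
  have hdiff : av O (fun z => h z * φ (z j)) - μ * av O h =
      (∑ y ∈ O, h y * (av (T (y j)) φ - μ)) / O.card := by
    rw [av, av, hsum, mul_div_assoc', ← sub_div, Finset.mul_sum, ← Finset.sum_sub_distrib]
    congr 1
    exact Finset.sum_congr rfl fun y _ => by ring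
  rw [hdiff, abs_div, abs_of_pos hOpos, av]
  refine div_le_div_of_nonneg_right ?_ hOpos.le
  refine (Finset.abs_sum_le_sum_abs _ _).trans (Finset.sum_le_sum fun z hz => ?_)
  rw [abs_mul]
  calc |h z| * |av (T (z j)) φ - μ| ≤ 1 * |av (T (z j)) φ - μ| :=
        mul_le_mul_of_nonneg_right (h1 z hz) (abs_nonneg _)
    _ ≤ ψ (z j) := by rw [one_mul]; exact hψ (z j) _ (hTp _)

end block

variable {G 𝒦 : Type} [Group G] {Γ : Subgroup G} {ι : Type} [Fintype ι] {Y : ι → CMCurve G 𝒦}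

/-- **Main theorem on products.** -/
theorem equi (hinj : ∀ j, Function.Injective (Y j).pt) (hfin : ∀ j (p : (Y j).P), (orbit G p).Finite)
    (x : ℕ → ∀ j, (Y j).P) (r : ℕ → ι → ℕ) (hr : ∀ i, Function.Injective (r i))
    (Δ : ℕ → ι → Subgroup G) (hΔn : ∀ i j, (Δ i j).Normal) (hΔle : ∀ i j, Δ i j ≤ Γ)
    (hΔfix : ∀ i j k, r i k < r i j → ∀ d ∈ Δ i j, ∀ g : G, d • g • x i k = g • x i k)
    (hmost : ∀ j, ∀ f : BoundedContinuousFunction (Y j).X ℝ, ∀ ε : ℝ, 0 < ε → ∀ᶠ i in atTop,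
      (({z | z ∈ orbit Γ (x i j) ∧ ε < |∫ w, f w ∂(uniformOn ((Y j).pt '' orbit (Δ i j) z)) -
        ∫ w, f w ∂(Y j).m|} : Set (Y j).P).ncard : ℝ) ≤ ε * (orbit Γ (x i j)).ncard)
    (f : BoundedContinuousFunction (∀ j, (Y j).X) ℝ) :
    Tendsto (fun i => ∫ z, f z ∂(galoisMeasure Γ (x i))) atTop
      (𝓝 (∫ z, f z ∂(Measure.pi fun j => (Y j).m))) := by
  classical
  set F : (∀ j, (Y j).P) → ∀ j, (Y j).X := fun y j => (Y j).pt (y j) with hF
  have hFinj : Function.Injective F := by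
    intro y z hyz
    funext j
    exact hinj j (congrFun hyz j)
  have hsub : ∀ (H : Subgroup G) (j : ι) (p : (Y j).P), (orbit H p).Finite := by
    intro H j p
    refine (hfin j p).subset ?_
    rintro _ ⟨h, rfl⟩
    exact ⟨(h : G), rfl⟩
  have hOfin : ∀ i, (orbit Γ (x i)).Finite := by
    intro i
    refine (Set.Finite.pi' fun j => hsub Γ j (x i j)).subset ?_
    rintro _ ⟨g, rfl⟩ j
    exact ⟨g, rfl⟩
  set O : ℕ → Finset (∀ j, (Y j).P) := fun i => (hOfin i).toFinset with hO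
  have hOc : ∀ i, (O i : Set (∀ j, (Y j).P)) = orbit Γ (x i) := fun i => Set.Finite.coe_toFinset _
  have hOmem : ∀ i y, y ∈ O i ↔ y ∈ orbit Γ (x i) := fun i y => Set.Finite.mem_toFinset _
  have hxO : ∀ i, x i ∈ O i := fun i => (hOmem i _).2 (mem_orbit_self _)
  have hOj : ∀ i, ∀ y ∈ O i, ∀ j, ∃ g ∈ Γ, y j = g • x i j := by
    intro i y hy j
    obtain ⟨g, hg⟩ := (hOmem i y).1 hy
    exact ⟨g, g.2, by rw [← hg]; rfl⟩
  -- the orbit of one coordinate
  set S : ℕ → ∀ j, Finset (Y j).P := fun i j => (hsub Γ j (x i j)).toFinset with hS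
  have hSc : ∀ i j, (S i j : Set (Y j).P) = orbit Γ (x i j) := fun i j => Set.Finite.coe_toFinset _
  have hSmem : ∀ i j y, y ∈ S i j ↔ y ∈ orbit Γ (x i j) := fun i j y => Set.Finite.mem_toFinset _
  have hScard : ∀ i j, (S i j).card = (orbit Γ (x i j)).ncard := fun i j => by
    rw [← hSc, Set.ncard_coe_finset]
  -- the orbit measures in one coordinate
  let ρ : ∀ (j : ι), ℕ → (Y j).P → ProbabilityMeasure (Y j).X := fun j i z =>
    ⟨uniformOn ((Y j).pt '' orbit (Δ i j) z), isProbabilityMeasure_uniformOn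
      ((hsub _ _ _).image _) ⟨_, _, mem_orbit_self _, rfl⟩⟩
  let μ : ∀ j, ProbabilityMeasure (Y j).X := fun j => ⟨(Y j).m, inferInstance⟩
  have hlim : ∀ j, Tendsto (fun ν : ProbabilityMeasure (Y j).X => ν)
      (mostFilter (fun i => S i j) (ρ j)) (𝓝 (μ j)) := by
    intro j
    rw [ProbabilityMeasure.tendsto_iff_forall_integral_tendsto]
    intro f'
    rw [Metric.tendsto_nhds]
    intro δ hδ ε hε
    have hm0 : 0 < min ε (δ / 2) := lt_min hε (half_pos hδ)
    filter_upwards [hmost j f' _ hm0] with i hi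
    rw [hScard]
    refine le_trans ?_ (hi.trans (mul_le_mul_of_nonneg_right (min_le_left _ _) (Nat.cast_nonneg _)))
    have hfin' : ({z | z ∈ orbit Γ (x i j) ∧ min ε (δ / 2) <
        |∫ w, f' w ∂(uniformOn ((Y j).pt '' orbit (Δ i j) z)) -
          ∫ w, f' w ∂(Y j).m|} : Set (Y j).P).Finite := (hsub Γ j (x i j)).subset fun z hz => hz.1
    refine Nat.cast_le.2 (Set.ncard_le_ncard ?_ hfin')
    rintro z ⟨hz, hz'⟩
    refine ⟨(hSmem i j z).1 hz, ?_⟩
    by_contra hcon
    push Not at hcon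
    refine hz' ?_
    change dist (∫ w, f' w ∂(uniformOn ((Y j).pt '' orbit (Δ i j) z))) (∫ w, f' w ∂(Y j).m) < δ
    rw [Real.dist_eq]
    exact lt_of_le_of_lt (hcon.trans (min_le_right _ _)) (by linarith)
  let ν : ℕ → ProbabilityMeasure (∀ j, (Y j).X) := fun i =>
    ⟨galoisMeasure Γ (x i), isProbabilityMeasure_uniformOn ((hOfin i).image _)
      ⟨_, _, mem_orbit_self _, rfl⟩⟩
  have hν : Tendsto ν atTop (𝓝 (ProbabilityMeasure.pi μ)) := by
    refine tendsto_of_pi_sets μ ν fun s hs hs0 => ?_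
    set φ : ∀ j, (Y j).P → ℝ := fun j p => (s j).indicator (fun _ => (1 : ℝ)) ((Y j).pt p) with hφ
    have hφ01 : ∀ j p, 0 ≤ φ j p ∧ φ j p ≤ 1 := by
      intro j p
      simp only [hφ, Set.indicator]
      split_ifs <;> norm_num
    set mu : ι → ℝ := fun j => ((μ j (s j) : NNReal) : ℝ) with hmu
    have hmu01 : ∀ j, 0 ≤ mu j ∧ mu j ≤ 1 := fun j =>
      ⟨NNReal.coe_nonneg _, by exact_mod_cast (μ j).apply_le_one (s j)⟩
    have hav : ∀ (j : ι) (p : (Y j).P) (H : Subgroup G) (T : Finset (Y j).P),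
        (T : Set (Y j).P) = orbit H p →
        av T (φ j) = (uniformOn ((Y j).pt '' orbit H p)).real (s j) := by
      intro j p H T hT
      rw [← hT, ← integral_indicator_one (hs j), av]
      exact (integral_uniformOn_image (hinj j) T ((s j).indicator 1)).symm
    set ψ : ℕ → ∀ j, (Y j).P → ℝ := fun i j p =>
      |((ρ j i p (s j) : NNReal) : ℝ) - mu j| with hψdef
    have hψ0 : ∀ i j p, 0 ≤ ψ i j p := fun i j p => abs_nonneg _
    have hψ1 : ∀ i j p, ψ i j p ≤ 1 := by
      intro i j p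
      have h1 : 0 ≤ ((ρ j i p (s j) : NNReal) : ℝ) := NNReal.coe_nonneg _
      have h2 : ((ρ j i p (s j) : NNReal) : ℝ) ≤ 1 := by exact_mod_cast (ρ j i p).apply_le_one (s j)
      simp only [hψdef]
      rw [abs_le]
      constructor <;> linarith [(hmu01 j).1, (hmu01 j).2]
    set dev : ℕ → ι → ℝ := fun i j => av (S i j) (ψ i j) with hdev
    have hdevO : ∀ i j, av (O i) (fun y => ψ i j (y j)) = dev i j := fun i j =>
      av_equiv (H := Γ) (π := fun z : ∀ j, (Y j).P => z j) (fun g a => rfl) (x i) (hOc i) (hSc i j) _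
    have hdev0 : ∀ j, Tendsto (fun i => dev i j) atTop (𝓝 0) := by
      intro j
      have h2 := ProbabilityMeasure.tendsto_measure_of_null_frontier_of_tendsto (hlim j) (hs0 j)
      have h3 : Tendsto (fun ν' : ProbabilityMeasure (Y j).X => ((ν' (s j) : NNReal) : ℝ))
          (mostFilter (fun i => S i j) (ρ j)) (𝓝 (mu j)) := (NNReal.tendsto_coe.2 h2)
      rw [Metric.tendsto_nhds] at h3 ⊢
      intro ε hε
      have hε4 : 0 < ε / 4 := by linarith
      filter_upwards [h3 (ε / 4) hε4 (ε / 4) hε4] with i hi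
      have h5 : av (S i j) (ψ i j) ≤ 2 * (ε / 4) := by
        refine av_le_of_most (S i j) (ψ i j) hε4.le (fun z _ => hψ1 i j z) ?_
        refine le_trans (Nat.cast_le.2 (Set.ncard_le_ncard ?_
          ((S i j).finite_toSet.subset fun z hz => hz.1))) hi
        rintro z ⟨hz, hz'⟩
        refine ⟨hz, fun h => hz' ?_⟩
        have h6 : dist ((ρ j i z (s j) : NNReal) : ℝ) (mu j) < ε / 4 := h
        rwa [Real.dist_eq] at h6
      have h7 : 0 ≤ dev i j := by
        simp only [hdev, av]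
        exact div_nonneg (Finset.sum_nonneg fun z _ => hψ0 i j z) (Nat.cast_nonneg _)
      rw [Real.dist_eq, sub_zero, abs_of_nonneg h7]
      change av (S i j) (ψ i j) < ε
      linarith
    -- the product formula up to the deviations
    have key : ∀ i (T : Finset ι), |av (O i) (fun y => ∏ k ∈ T, φ k (y k)) - ∏ k ∈ T, mu k| ≤
        ∑ k ∈ T, dev i k := by
      intro i T
      refine Finset.induction_on_max_value (r i) T ?_ ?_
      · have hOpos : (0 : ℝ) < (O i).card := by exact_mod_cast Finset.card_pos.2 ⟨x i, hxO i⟩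
        simp [av, hOpos.ne']
      · intro j T hj hmax ih
        have h1 : ∀ y ∈ O i, |∏ k ∈ T, φ k (y k)| ≤ 1 := by
          intro y _
          rw [Finset.abs_prod]
          refine Finset.prod_le_one (fun k _ => abs_nonneg _) fun k _ => ?_
          rw [abs_of_nonneg (hφ01 k _).1]
          exact (hφ01 k _).2
        have h2 : ∀ y ∈ O i, ∀ d ∈ Δ i j, ∏ k ∈ T, φ k ((d • y) k) = ∏ k ∈ T, φ k (y k) := by
          intro y hy d hd
          refine Finset.prod_congr rfl fun k hk => ?_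
          have hkj : r i k < r i j := by
            refine lt_of_le_of_ne (hmax k hk) fun he => ?_
            exact hj (hr i he ▸ hk)
          obtain ⟨g, -, hg⟩ := hOj i y hy k
          rw [Pi.smul_apply, hg, hΔfix i j k hkj d hd g]
        have h3 := av_far (P := fun j => (Y j).P) (hΔn i j) (hΔle i j) hfin (hOc i) (j := j)
          (fun y => ∏ k ∈ T, φ k (y k)) h1 h2 (φ j) (mu j) (ψ i j) (fun p T' hT' => by
            rw [hav j p (Δ i j) T' hT']
            exact le_rfl)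
        rw [hdevO] at h3
        have h4 : av (O i) (fun y => ∏ k ∈ insert j T, φ k (y k)) =
            av (O i) (fun z => (∏ k ∈ T, φ k (z k)) * φ j (z j)) := by
          congr 1
          funext z
          rw [Finset.prod_insert hj, mul_comm]
        rw [h4, Finset.prod_insert hj, Finset.sum_insert hj]
        set E := av (O i) (fun y => ∏ k ∈ T, φ k (y k)) with hE'
        calc |av (O i) (fun z => (∏ k ∈ T, φ k (z k)) * φ j (z j)) - mu j * ∏ k ∈ T, mu k|
            = |(av (O i) (fun z => (∏ k ∈ T, φ k (z k)) * φ j (z j)) - mu j * E) +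
                mu j * (E - ∏ k ∈ T, mu k)| := by congr 1; ring
          _ ≤ |av (O i) (fun z => (∏ k ∈ T, φ k (z k)) * φ j (z j)) - mu j * E| +
                |mu j * (E - ∏ k ∈ T, mu k)| := abs_add_le _ _
          _ ≤ dev i j + ∑ k ∈ T, dev i k := by
              refine add_le_add h3 ?_
              rw [abs_mul, abs_of_nonneg (hmu01 j).1]
              calc mu j * |E - ∏ k ∈ T, mu k| ≤ 1 * |E - ∏ k ∈ T, mu k| :=
                    mul_le_mul_of_nonneg_right (hmu01 j).2 (abs_nonneg _)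
                _ ≤ _ := by rw [one_mul]; exact ih
    have hsum0 : Tendsto (fun i => ∑ k, dev i k) atTop (𝓝 0) := by
      have := tendsto_finsetSum Finset.univ fun k _ => hdev0 k
      simpa using this
    have hav1 : Tendsto (fun i => av (O i) (fun y => ∏ k, φ k (y k))) atTop (𝓝 (∏ k, mu k)) := by
      rw [tendsto_iff_norm_sub_tendsto_zero]
      exact squeeze_zero (fun i => norm_nonneg _) (fun i => key i Finset.univ) hsum0
    rw [← NNReal.tendsto_coe]
    push_cast
    refine hav1.congr fun i => ?_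
    have h5 : ((ν i (Set.univ.pi s) : NNReal) : ℝ) =
        (galoisMeasure Γ (x i)).real (Set.univ.pi s) := rfl
    rw [h5, ← integral_indicator_one (MeasurableSet.univ_pi hs), galoisMeasure, ← hOc i,
      integral_uniformOn_image hFinj, av]
    congr 1
    refine Finset.sum_congr rfl fun y _ => ?_
    simp only [hφ, Set.indicator]
    by_cases hall : ∀ j, (Y j).pt (y j) ∈ s j
    · rw [if_pos (by simpa using hall)]
      simp [hall]
    · rw [if_neg (by simpa using hall)]
      push Not at hall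
      obtain ⟨j, hj⟩ := hall
      exact Finset.prod_eq_zero (Finset.mem_univ j) (if_neg hj)
  exact (ProbabilityMeasure.tendsto_iff_forall_integral_tendsto.1 hν) f

end Pool.Agent.U980.RC
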