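import Mathlib
import Pool.Agent.U980.RC.Most

/-!
# Conductors of CM points and equidistribution under relative Galois groups
-/

set_option autoImplicit false

namespace Pool.Agent.U980.RC

open Pool.Agent.U980.EQ MulAction MeasureTheory Filter Topology ProbabilityTheory

variable {G 𝒦 : Type} [Group G]

/-- The conductors of the CM points and the ring class fields with level structure. Let `N` be a common
level of the curves, and let `K(N; l)` be the abelian extension of `K` with norm group
`K^× {u ∈ Ô^× : u ≡ 1 mod N Ô}`, where `O` is the order of conductor `l` in `K` (the ring class field of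
conductor `l` if `N = 1`). `R K l` is the Galois group of `ℚ̄` over the composite of `K(N; l)` and the Galois
closure of `F`. -/
structure RingClassFields {ι : Type} (gal : 𝒦 → Subgroup G) (Γ : Subgroup G) (Y : ι → CMCurve G 𝒦) where
  /-- the conductor of the quadratic order of a CM point -/
  cond : ∀ j, (Y j).P → ℕ
  cond_pos : ∀ j y, 0 < cond j y
  /-- the Galois groups over the ring class fields with level structure -/
  R : 𝒦 → ℕ → Subgroup G
  normal : ∀ K l, (R K l).Normal
  le : ∀ K l, R K l ≤ Γ ⊓ gal K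
  /-- CM points whose conductor divides `l` are defined over these fields -/
  fix : ∀ j (y : (Y j).P) l, 0 < l → cond j y ∣ l → ∀ g ∈ R ((Y j).fld y) l, g • y = y

/-- Equidistribution under relative Galois groups on one modular curve (Hecke orbits): if the conductor `c`
of a CM point `y` is large compared with its greatest common divisor with `l`, then for most
conjugates `z` of `y` the orbit of `z` under the Galois group over the field of the conductor `l` is almost
equidistributed. -/
def RelativeEquidistribution (Γ : Subgroup G) (Y : CMCurve G 𝒦) (cond : Y.P → ℕ)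
    (R : 𝒦 → ℕ → Subgroup G) : Prop :=
  ∀ f : BoundedContinuousFunction Y.X ℝ, ∀ ε : ℝ, 0 < ε → ∃ M : ℕ, ∀ y ∈ Y.comp, ∀ l : ℕ, 0 < l →
    M * Nat.gcd (cond y) l ≤ cond y →
    (({z | z ∈ orbit Γ y ∧ ε < |∫ w, f w ∂(uniformOn (Y.pt '' orbit (R (Y.fld y) l) z)) -
      ∫ w, f w ∂Y.m|} : Set Y.P).ncard : ℝ) ≤ ε * (orbit Γ y).ncard

section tuple

variable {ι : Type} [Fintype ι] {Y : ι → CMCurve G 𝒦}

/-- The least common multiple of the conductors of the coordinates which precede the `j`-th one. -/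
def preceding (cond : ∀ j, (Y j).P → ℕ) (r : ι → ℕ) (x : ∀ j, (Y j).P) (j : ι) : ℕ :=
  (Finset.univ.filter fun k => r k < r j).lcm fun k => cond k (x k)

theorem preceding_pos {cond : ∀ j, (Y j).P → ℕ} (h : ∀ j y, 0 < cond j y) (r : ι → ℕ)
    (x : ∀ j, (Y j).P) (j : ι) : 0 < preceding cond r x j := by
  refine Nat.pos_of_ne_zero fun h0 => ?_
  rw [preceding, Finset.lcm_eq_zero_iff] at h0
  obtain ⟨k, -, hk⟩ := h0
  exact (h k (x k)).ne' hk

theorem dvd_preceding (cond : ∀ j, (Y j).P → ℕ) {r : ι → ℕ} (x : ∀ j, (Y j).P) {j k : ι}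
    (h : r k < r j) : cond k (x k) ∣ preceding cond r x j :=
  Finset.dvd_lcm (f := fun k => cond k (x k)) (Finset.mem_filter.2 ⟨Finset.mem_univ k, h⟩)

/-- The relative conductor of `x j`, with respect to the preceding coordinates, is at least `m`; all these
coordinates have the same CM field. -/
def RelativelyLarge (cond : ∀ j, (Y j).P → ℕ) (r : ι → ℕ) (m : ℕ) (x : ∀ j, (Y j).P) (j : ι) : Prop :=
  (∀ k, r k < r j → (Y k).fld (x k) = (Y j).fld (x j)) ∧
    m * Nat.gcd (cond j (x j)) (preceding cond r x j) ≤ cond j (x j)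

end tuple

theorem orbit_le_two {gal : 𝒦 → Subgroup G} (hgal : IsQuadratic gal) (Γ : Subgroup G) (K : 𝒦)
    {P : Type} [MulAction G P] {p : P} (hp : (orbit G p).Finite) :
    (orbit Γ p).ncard ≤ 2 * (orbit (Γ ⊓ gal K : Subgroup G) p).ncard := by
  set S := stabilizer G p with hS
  have hS0 : S.index ≠ 0 := stab_index hp
  have h2 : (gal K).index ≠ 0 := by rw [hgal.2]; norm_num
  rw [orbit_ncard, orbit_ncard]
  calc S.relIndex Γ ≤ (S ⊓ gal K).relIndex Γ :=
        Subgroup.relIndex_le_of_le_left inf_le_left (rel_ne (Subgroup.index_inf_ne_zero hS0 h2) _)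
    _ = S.relIndex (gal K ⊓ Γ) * (gal K).relIndex Γ := (Subgroup.relIndex_inf_mul_relIndex _ _ _).symm
    _ ≤ S.relIndex (Γ ⊓ gal K) * 2 := by
        rw [inf_comm]
        exact Nat.mul_le_mul_left _ ((rel_le h2 _).trans (le_of_eq (hgal.2 K)))
    _ = 2 * S.relIndex (Γ ⊓ gal K) := mul_comm _ _

variable {gal : 𝒦 → Subgroup G} {Γ : Subgroup G} {ι : Type} [Fintype ι] {Y : ι → CMCurve G 𝒦}

/-- **Main theorem.** -/
theorem main (hgal : IsQuadratic gal) (hΓ : Γ.index ≠ 0) (hY : ∀ j, IsCM gal Γ (Y j)) {δ : ℝ}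
    (hδ : 0 < δ) (hE : ∀ j, SparseEquidistribution gal Γ (Y j) δ) (C : RingClassFields gal Γ Y)
    (hR : ∀ j, RelativeEquidistribution Γ (Y j) (C.cond j) C.R) (x : ℕ → ∀ j, (Y j).P)
    (hx : ∀ i j, x i j ∈ (Y j).comp) (hgen : ∀ j, ∀ p : (Y j).P, ∀ᶠ i in atTop, x i j ≠ p)
    (M : ℕ → ℕ) (hM : Tendsto M atTop atTop)
    (r : ℕ → ι → ℕ) (hr : ∀ i, Function.Injective (r i)) {η c : ℝ} (hη : η < δ)
    (hov : ∀ i j, (overlap gal (r i) (x i) j : ℝ) ≤ c * ((Y j).disc (x i j) : ℝ) ^ η ∨
      RelativelyLarge C.cond (r i) (M i) (x i) j)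
    (f : BoundedContinuousFunction (∀ j, (Y j).X) ℝ) :
    Tendsto (fun i => ∫ z, f z ∂(galoisMeasure Γ (x i))) atTop
      (𝓝 (∫ z, f z ∂(Measure.pi fun j => (Y j).m))) := by
  classical
  obtain ⟨K, hK⟩ := exists_delta hgal hΓ hY
  choose Δ0 hΔn hΔle hΔfix hΔc using fun i => hK (r i) (x i)
  set A : ℕ → ι → Prop := fun i j =>
    (overlap gal (r i) (x i) j : ℝ) ≤ c * ((Y j).disc (x i j) : ℝ) ^ η with hA
  set Δ : ℕ → ι → Subgroup G := fun i j =>
    if A i j then Δ0 i j else C.R ((Y j).fld (x i j)) (preceding C.cond (r i) (x i) j) with hΔ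
  have hΔA : ∀ i j, A i j → Δ i j = Δ0 i j := fun i j h => if_pos h
  have hΔA' : ∀ i j, ¬ A i j → Δ i j = C.R ((Y j).fld (x i j)) (preceding C.cond (r i) (x i) j) :=
    fun i j h => if_neg h
  have hsub : ∀ (H : Subgroup G) (j : ι) (p : (Y j).P), (orbit H p).Finite := by
    intro H j p
    refine ((hY j).finite_orbit p).subset ?_
    rintro _ ⟨h, rfl⟩
    exact ⟨(h : G), rfl⟩
  refine equi (fun j => (hY j).pt_inj) (fun j p => (hY j).finite_orbit p) x r hr Δ ?_ ?_ ?_ ?_ f
  · intro i j
    by_cases h : A i j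
    · rw [hΔA i j h]
      exact hΔn i j
    · rw [hΔA' i j h]
      exact C.normal _ _
  · intro i j
    by_cases h : A i j
    · rw [hΔA i j h]
      exact (hΔle i j).trans inf_le_left
    · rw [hΔA' i j h]
      exact (C.le _ _).trans inf_le_left
  · intro i j k hk d hd g
    by_cases h : A i j
    · rw [hΔA i j h] at hd
      exact hΔfix i j k hk d hd g
    · rw [hΔA' i j h] at hd
      have h1 : RelativelyLarge C.cond (r i) (M i) (x i) j := (hov i j).resolve_left h
      have h2 : g⁻¹ * d * g⁻¹⁻¹ ∈ C.R ((Y j).fld (x i j)) (preceding C.cond (r i) (x i) j) :=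
        (C.normal _ _).conj_mem d hd g⁻¹
      rw [← h1.1 k hk] at h2
      have h3 := C.fix k (x i k) _ (preceding_pos C.cond_pos (r i) (x i) j)
        (dvd_preceding C.cond (x i) hk) _ h2
      rw [inv_inv, mul_smul, mul_smul, inv_smul_eq_iff] at h3
      exact h3
  · intro j f' ε hε
    -- the coordinates with small overlap
    set Δ' : ℕ → Subgroup G := fun i => if A i j then Δ0 i j else Γ ⊓ gal ((Y j).fld (x i j)) with hΔ'
    set dev : ℕ → (Y j).P → ℝ := fun i z =>
      |∫ w, f' w ∂(uniformOn ((Y j).pt '' orbit (Δ' i) z)) - ∫ w, f' w ∂(Y j).m| with hdev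
    have hworst : ∀ i, ∃ y ∈ (hsub Γ j (x i j)).toFinset, ∀ z ∈ (hsub Γ j (x i j)).toFinset,
        dev i z ≤ dev i y := fun i =>
      Finset.exists_max_image _ (dev i) ⟨x i j, (Set.Finite.mem_toFinset _).2 (mem_orbit_self _)⟩
    choose w hw hwmax using hworst
    have hwj : ∀ i, ∃ g ∈ Γ, w i = g • x i j := by
      intro i
      obtain ⟨g, hg⟩ := (Set.Finite.mem_toFinset _).1 (hw i)
      exact ⟨g, g.2, hg.symm⟩
    have hdisc : ∀ i, (Y j).disc (w i) = (Y j).disc (x i j) := by
      intro i
      obtain ⟨g, -, hg⟩ := hwj i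
      rw [hg, (hY j).disc_smul]
    have hD : Tendsto (fun i => (Y j).disc (x i j)) atTop atTop := disc_tendsto (hY j) (hgen j)
    have hsparse : Tendsto (fun i => ∫ z, f' z ∂(uniformOn ((Y j).pt '' orbit (Δ' i) (w i)))) atTop
        (𝓝 (∫ z, f' z ∂(Y j).m)) := by
      refine hE j w Δ' ?_ ?_ ?_ ?_ f'
      · intro i
        obtain ⟨g, hg, hgy⟩ := hwj i
        rw [hgy]
        exact (hY j).comp_smul g hg _ (hx i j)
      · intro i
        obtain ⟨g, hg, hgy⟩ := hwj i
        rw [hgy, (hY j).fld_smul]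
        simp only [hΔ']
        split_ifs
        · exact hΔle i j
        · exact le_rfl
      · exact hD.congr fun i => (hdisc i).symm
      · choose C' hC' using fun (ε : ℝ) (hε : 0 < ε) => (hY j).genus ε hε
        obtain ⟨ε', hε', hgr⟩ := growth hD hη (Fintype.card ι) (K : ℝ) c
          (fun ε => if h : 0 < ε then C' ε h else 0)
        simp only [dif_pos hε'] at hgr
        have h2D : ∀ᶠ i in atTop, (2 : ℝ) ≤ ((Y j).disc (x i j) : ℝ) ^ δ :=
          ((tendsto_rpow_atTop hδ).comp (tendsto_natCast_atTop_atTop.comp hD)).eventually_ge_atTop 2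
        filter_upwards [hgr, h2D] with i hi hi2
        obtain ⟨g, hg, hgy⟩ := hwj i
        by_cases hAi : A i j
        · have e : Δ' i = Δ0 i j := if_pos hAi
          have h2 := hΔc i j
          have h3 : ((orbit Γ (x i j)).ncard : ℝ) ≤ (K : ℝ) * overlap gal (r i) (x i) j *
              (tor (gal ((Y j).fld (x i j))) ((Y j).N (x i j)) : ℝ) ^ Fintype.card ι *
                (orbit (Δ0 i j) (x i j)).ncard := by exact_mod_cast h2
          have h4 : orbit Γ (w i) = orbit Γ (x i j) := by
            rw [hgy]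
            exact orbit_eq_iff.2 ⟨⟨g, hg⟩, rfl⟩
          have h5 : (orbit (Δ0 i j) (w i)).ncard = (orbit (Δ0 i j) (x i j)).ncard := by
            rw [hgy]
            exact orbit_smul_ncard (hΔn i j) g _
          rw [e, hdisc i, h4, h5]
          refine h3.trans (mul_le_mul_of_nonneg_right ?_ (Nat.cast_nonneg _))
          refine le_trans ?_ hi
          refine mul_le_mul (mul_le_mul_of_nonneg_left hAi (Nat.cast_nonneg _))
            (pow_le_pow_left₀ (Nat.cast_nonneg _) (hC' ε' hε' (x i j)) _) (by positivity) ?_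
          exact mul_nonneg (Nat.cast_nonneg _) ((Nat.cast_nonneg _).trans hAi)
        · have e : Δ' i = Γ ⊓ gal ((Y j).fld (x i j)) := if_neg hAi
          rw [e, hdisc i]
          have h6 := orbit_le_two hgal Γ ((Y j).fld (x i j)) ((hY j).finite_orbit (w i))
          have h7 : ((orbit Γ (w i)).ncard : ℝ) ≤
              2 * (orbit (Γ ⊓ gal ((Y j).fld (x i j)) : Subgroup G) (w i)).ncard := by
            exact_mod_cast h6
          exact h7.trans (mul_le_mul_of_nonneg_right hi2 (Nat.cast_nonneg _))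
    have hdev0 : ∀ᶠ i in atTop, dev i (w i) < ε := by
      rw [Metric.tendsto_nhds] at hsparse
      filter_upwards [hsparse ε hε] with i hi
      rwa [Real.dist_eq] at hi
    obtain ⟨M0, hM0⟩ := hR j f' ε hε
    filter_upwards [hdev0, hM.eventually_ge_atTop M0] with i hi hMi
    by_cases hAi : A i j
    · have e : ({z | z ∈ orbit Γ (x i j) ∧ ε < |∫ w, f' w ∂(uniformOn ((Y j).pt '' orbit (Δ i j) z)) -
          ∫ w, f' w ∂(Y j).m|} : Set (Y j).P) = ∅ := by
        rw [Set.eq_empty_iff_forall_notMem]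
        rintro z ⟨hz, hz'⟩
        have h1 := hwmax i z ((Set.Finite.mem_toFinset _).2 hz)
        have h2 : dev i z = |∫ w, f' w ∂(uniformOn ((Y j).pt '' orbit (Δ i j) z)) -
            ∫ w, f' w ∂(Y j).m| := by
          have e' : Δ' i = Δ i j := by
            rw [hΔA i j hAi]
            exact if_pos hAi
          rw [← e']
        rw [h2] at h1
        exact absurd (hz'.trans_le h1) (not_lt.2 hi.le)
      rw [e, Set.ncard_empty, Nat.cast_zero]
      positivity
    · rw [hΔA' i j hAi]
      have h1 : RelativelyLarge C.cond (r i) (M i) (x i) j := (hov i j).resolve_left hAi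
      exact hM0 (x i j) (hx i j) _ (preceding_pos C.cond_pos (r i) (x i) j)
        ((Nat.mul_le_mul_right _ hMi).trans h1.2)

end Pool.Agent.U980.RC
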